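import Pool.Agent.Lib.H5FRZ.Ent

/-!
# Normal numbers whose reciprocal is deterministic

The definitions are in `Pool/Agent/Lib/H5FRZ/Ent.lean`: `digitSeq r x` is the digit sequence of the
fractional part of `x` in base `r`, `Normal r x` is normality in base `r`, and `Deterministic r x`
says that the shift has Kolmogorov-Sinai entropy zero for every weak* limit point of the empirical
measures of `digitSeq r x`.
-/

set_option autoImplicit false

namespace Pool.Agent.Results.MP_a16150_an.LiteralEntropy

open Pool.Agent.Lib.H5FRZ

open Filter in
/-- For every base `r ≥ 2` there is a real number `x`, normal in base `r`, such that `1 / x` is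
deterministic in base `r`; moreover the nonzero base `r` digits of `1 / x` have density zero. -/
theorem result (r : ℕ) [NeZero r] (hr : 2 ≤ r) :
    ∃ x : ℝ, Normal r x ∧ Deterministic r (1 / x) ∧
      Tendsto (fun N : ℕ =>
        (((Finset.range N).filter (fun n => digitSeq r (1 / x) n ≠ 0)).card : ℝ) / N)
        atTop (nhds 0) :=
  main r hr

end Pool.Agent.Results.MP_a16150_an.LiteralEntropy
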